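import Pool.Agent.Helper48.WeissJ.Goals

/-! MP_6b0aee_an (Weiss), joint version: packet BLK, the block names. -/

open Set Filter Topology

namespace Pool.Agent.Helper9.WeissJ

open Pool.Agent.Helper48.WeissJ

section

variable {X Λ : Type*} {F : X → X} {q : Λ → X → ℝ}

theorem iter_add (F : X → X) (a b : ℕ) (x : X) : F^[a] (F^[b] x) = F^[b + a] x := by
  rw [← Function.iterate_add_apply, add_comm]

/-- The sub-words of a word of positive weight have positive weight. -/
theorem sub_pos' [TopologicalSpace X] (hq : IsCoding q) {T L n : ℕ} {w : Fin (n * T + L) → Λ}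
    {x : X} (h : 0 < qw F q (n * T + L) w x) (k : ℕ) (_hk : k < n)
    (hlt : ∀ s : Fin (T + L), k * T + s < n * T + L) :
    0 < qw F q (T + L) (fun s => w ⟨k * T + s, hlt s⟩) (F^[k * T] x) := by
  refine Finset.prod_pos fun s _ => ?_
  rw [iter_add]
  exact hq.pos_of_qw_pos h ⟨k * T + s, hlt s⟩

theorem R_of_cl [TopologicalSpace X] (hq : IsCoding q) {R : Set (X × X)} {T L N n : ℕ}
    {ν : (Fin (T + L) → Λ) → Fin N} (hT : 0 < T)
    (hν : ∀ (w w' : Fin (T + L) → Λ) (x y : X), 0 < qw F q (T + L) w x →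
      0 < qw F q (T + L) w' y → ν w = ν w' → ∀ s < T, (F^[s] x, F^[s] y) ∈ R)
    {w w' : Fin (n * T + L) → Λ} {x y : X} (hx : 0 < qw F q (n * T + L) w x)
    (hy : 0 < qw F q (n * T + L) w' y) (h : cl ν w = cl ν w') :
    ∀ s < n * T, (F^[s] x, F^[s] y) ∈ R := by
  intro s hs
  have hk : s / T < n := Nat.div_lt_of_lt_mul (by rwa [mul_comm] at hs)
  have hi : s % T < T := Nat.mod_lt _ hT
  have h1 := congrFun h ⟨s / T, hk⟩
  have h2 := hν _ _ _ _ (sub_pos' hq hx (s / T) hk _) (sub_pos' hq hy (s / T) hk _) h1 (s % T) hi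
  rw [iter_add, iter_add, Nat.div_add_mod' s T] at h2
  exact h2

theorem R_of_c {R : Set (X × X)} {T N n : ℕ} {c : X → Fin N} (hT : 0 < T)
    (hc : ∀ x y, c x = c y → ∀ s < T, (F^[s] x, F^[s] y) ∈ R) {x y : X}
    (h : (fun k : Fin n => c (F^[(k : ℕ) * T] x)) = fun k : Fin n => c (F^[(k : ℕ) * T] y)) :
    ∀ s < n * T, (F^[s] x, F^[s] y) ∈ R := by
  intro s hs
  have hk : s / T < n := Nat.div_lt_of_lt_mul (by rwa [mul_comm] at hs)
  have hi : s % T < T := Nat.mod_lt _ hT
  have h1 := congrFun h ⟨s / T, hk⟩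
  have h2 := hc _ _ h1 (s % T) hi
  rw [iter_add, iter_add, Nat.div_add_mod' s T] at h2
  exact h2

theorem refi_nonneg' [TopologicalSpace X] (hq : IsCoding q) (v : X → ℝ) (κ : ℝ) {ω : ℝ}
    (hω : 0 < ω) (a : Λ × Bool) (x : X) : 0 ≤ refi q v κ ω a x := by
  unfold refi
  refine mul_nonneg (hq.nonneg _ _) ?_
  split_ifs
  · exact up_nonneg _ hω _
  · exact dn_nonneg _ hω _

theorem refi_factor_pos [TopologicalSpace X] (hq : IsCoding q) {v : X → ℝ} {κ ω : ℝ}
    (hω : 0 < ω) {g : ℕ} {w : Fin g → Λ × Bool} {x : X} (h : 0 < qw F (refi q v κ ω) g w x)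
    (s : Fin g) : 0 < refi q v κ ω (w s) (F^[s] x) := by
  refine lt_of_le_of_ne (refi_nonneg' hq v κ hω _ _) fun h1 => ?_
  exact h.ne' (Finset.prod_eq_zero (Finset.mem_univ s) h1.symm)

theorem fst_pos [TopologicalSpace X] (hq : IsCoding q) {v : X → ℝ} {κ ω : ℝ}
    (hω : 0 < ω) {g : ℕ} {w : Fin g → Λ × Bool} {x : X} (h : 0 < qw F (refi q v κ ω) g w x) :
    0 < qw F q g (fun s => (w s).1) x :=
  Finset.prod_pos fun s _ => (refi_factor_pos hq hω h s).trans_le
    (refi_le hq v κ ω (w s).1 (w s).2 _)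

end

universe u

theorem blk : BLK.{u} := by
  classical
  intro X Λ _ _ F q hq R T L N n N₁ ν c bin κ ω hT hn hκ hω hc hν hbin
  have h0 : 0 < n * T + L := by positivity
  refine ⟨fun x => if h : κ ≤ tot F q (n * T + L) x then
      Sum.inl (bin (Classical.choose (hq.exists_qw_eq_tot (hκ.trans_le h))))
    else Sum.inr fun k => c (F^[(k : ℕ) * T] x),
    fun w => if (w ⟨0, h0⟩).2 = true then Sum.inl (bin fun s => (w s).1)
      else Sum.inr (cl ν fun s => (w s).1), ?_, ?_⟩
  · intro x y h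
    by_cases hx : κ ≤ tot F q (n * T + L) x <;> by_cases hy : κ ≤ tot F q (n * T + L) y
    · simp only [hx, hy, dif_pos] at h
      have h1 := Sum.inl_injective h
      have ex := Classical.choose_spec (hq.exists_qw_eq_tot (hκ.trans_le hx))
      have ey := Classical.choose_spec (hq.exists_qw_eq_tot (hκ.trans_le hy))
      refine ⟨Or.inl ⟨_, _, h1, ?_, ?_⟩, ?_⟩
      · rw [ex]; exact hx
      · rw [ey]; exact hy
      · refine R_of_cl hq hT hν ?_ ?_ (hbin _ _ h1)
        · rw [ex]; exact hκ.trans_le hx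
        · rw [ey]; exact hκ.trans_le hy
    · simp only [hx, hy, dif_pos, dif_neg, not_false_eq_true] at h
      exact absurd h Sum.inl_ne_inr
    · simp only [hx, hy, dif_pos, dif_neg, not_false_eq_true] at h
      exact absurd h Sum.inr_ne_inl
    · simp only [hx, hy, dif_neg, not_false_eq_true] at h
      have h1 := Sum.inr_injective h
      exact ⟨Or.inr ⟨(not_le.1 hx).le, (not_le.1 hy).le⟩, R_of_c hT hc h1⟩
  · intro w w' x y hx hy h
    have px := fst_pos hq hω hx
    have py := fst_pos hq hω hy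
    have ex := hq.qw_eq_tot px
    have ey := hq.qw_eq_tot py
    have fx := refi_factor_pos hq hω hx ⟨0, h0⟩
    have fy := refi_factor_pos hq hω hy ⟨0, h0⟩
    have gx : refi q (tot F q (n * T + L)) κ ω (w ⟨0, h0⟩) (F^[(⟨0, h0⟩ : Fin (n * T + L))] x) =
      refi q (tot F q (n * T + L)) κ ω ((w ⟨0, h0⟩).1, (w ⟨0, h0⟩).2) x := rfl
    have gy : refi q (tot F q (n * T + L)) κ ω (w' ⟨0, h0⟩) (F^[(⟨0, h0⟩ : Fin (n * T + L))] y) =
      refi q (tot F q (n * T + L)) κ ω ((w' ⟨0, h0⟩).1, (w' ⟨0, h0⟩).2) y := rfl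
    rw [gx] at fx
    rw [gy] at fy
    cases hbx : (w ⟨0, h0⟩).2 <;> cases hby : (w' ⟨0, h0⟩).2
    · simp only [hbx, hby, Bool.false_eq_true, if_false] at h
      have h1 := Sum.inr_injective h
      rw [hbx] at fx
      rw [hby] at fy
      exact ⟨Or.inr ⟨(refi_false_pos hq fx).2.le, (refi_false_pos hq fy).2.le⟩,
        R_of_cl hq hT hν px py h1⟩
    · simp only [hbx, hby, Bool.false_eq_true, if_false, if_true] at h
      exact absurd h Sum.inr_ne_inl
    · simp only [hbx, hby, Bool.false_eq_true, if_false, if_true] at h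
      exact absurd h Sum.inl_ne_inr
    · simp only [hbx, hby, if_true] at h
      have h1 := Sum.inl_injective h
      rw [hbx] at fx
      rw [hby] at fy
      refine ⟨Or.inl ⟨_, _, h1, ?_, ?_⟩, R_of_cl hq hT hν px py (hbin _ _ h1)⟩
      · rw [ex]; exact (refi_true_pos hq fx).2.le
      · rw [ey]; exact (refi_true_pos hq fy).2.le

end Pool.Agent.Helper9.WeissJ
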